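import Pool.Agent.Lib.MP_4fbe7c_an.WN.Base

/-!
Project WN (MP_4fbe7c_an), module ALI (helper53): Abel summation and the form in the letters
of the paper.
-/

set_option autoImplicit false

open Set MeasureTheory

namespace Pool.Agent.Lib.MP_4fbe7c_an.WN.H53

open Pool.Agent.Lib.MP_4fbe7c_an.UL Pool.Agent.Lib.MP_4fbe7c_an.ND

/-- Exchange of sums. -/
theorem exch (n m : ℕ) (x c : ℕ → ℝ) :
    ∑ i ∈ Finset.Ico m (n + 1), x i * ∑ k ∈ Finset.Ico (m + 1) (i + 1), c k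
      = ∑ k ∈ Finset.Ico (m + 1) (n + 1), c k * qv n x k := by
  simp only [qv, Finset.mul_sum]
  rw [Finset.sum_comm' (t' := Finset.Ico (m + 1) (n + 1)) (s' := fun k => Finset.Ico k (n + 1))]
  · exact Finset.sum_congr rfl fun k _ => Finset.sum_congr rfl fun i _ => mul_comm _ _
  · intro i k
    simp only [Finset.mem_Ico]
    omega

theorem tele (κ : ℕ → ℝ) (m i : ℕ) (h : m ≤ i) :
    ∑ k ∈ Finset.Ico (m + 1) (i + 1), al κ k = κ i - κ m := by
  induction i, h using Nat.le_induction with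
  | base => simp
  | succ i h ih =>
    rw [Finset.sum_Ico_succ_top (by omega), ih]
    unfold al
    rw [Nat.add_sub_cancel]
    ring

/-- Abel summation. -/
theorem abel (n m : ℕ) (κ z : ℕ → ℝ) :
    qv n (fun i => κ i * z i) m = κ m * qv n z m
      + ∑ l ∈ Finset.Ico (m + 1) (n + 1), al κ l * qv n z l := by
  rw [← exch]
  unfold qv
  rw [Finset.mul_sum, ← Finset.sum_add_distrib]
  refine Finset.sum_congr rfl fun i hi => ?_
  rw [tele κ m i (Finset.mem_Ico.mp hi).1]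
  ring

theorem ali_st : AliStatement := by
  intro n K s a b κ r z ζ hn hK hs hκ ρ' zh ω hρ hω hzh
  have h1K : (1 + K) ≠ 0 := by positivity
  have hζ : ζ = (1 + K) * ω := by rw [hω]; field_simp
  have hG : ∀ k, qv n ρ' k = zh k - K * ω * qv n r k := fun k => by rw [hzh]; ring
  have hGZ : ∀ k, qv n z k = zh k + ω * qv n r k := fun k => by
    have h1 : qv n ρ' k = qv n z k - ζ * qv n r k := by
      unfold qv
      rw [Finset.mul_sum, ← Finset.sum_sub_distrib]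
      exact Finset.sum_congr rfl fun i _ => by rw [hρ]; ring
    rw [hG] at h1
    rw [hζ] at h1
    linarith
  -- the sum with weights
  have hSg : ∀ (x : ℕ → ℝ), ∑ i ∈ Finset.Ico 1 (n + 1), x i * Sg n κ a b ρ' i
      = a * qv n ρ' 1 * qv n x 1
        + b * ∑ k ∈ Finset.Ico 2 (n + 1), al κ k * (qv n ρ' k * qv n x k) := fun x => by
    have h1 := exch n 1 x (fun k => (b * al κ k) • qv n ρ' k)
    simp only [Nat.reduceAdd] at h1
    have h2 : b * ∑ k ∈ Finset.Ico 2 (n + 1), al κ k * (qv n ρ' k * qv n x k)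
        = ∑ k ∈ Finset.Ico 2 (n + 1), ((b * al κ k) • qv n ρ' k) * qv n x k := by
      rw [Finset.mul_sum]
      exact Finset.sum_congr rfl fun k _ => by simp only [smul_eq_mul]; ring
    rw [h2, ← h1]
    have h3 : a * qv n ρ' 1 * qv n x 1 = ∑ i ∈ Finset.Ico 1 (n + 1), x i * (a * qv n ρ' 1) := by
      rw [← Finset.sum_mul]
      unfold qv
      ring
    rw [h3, ← Finset.sum_add_distrib]
    refine Finset.sum_congr rfl fun i _ => ?_
    unfold Sg
    simp only [smul_eq_mul]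
    ring
  have hSb : ∀ (x : ℕ → ℝ), ∑ i ∈ Finset.Ico 1 (n + 1), x i * Sb n κ a b r i
      = a * qv n r 1 * qv n x 1
        + b * ∑ k ∈ Finset.Ico 2 (n + 1), al κ k * (qv n r k * qv n x k) := fun x => by
    have h1 := exch n 1 x (fun k => b * (al κ k * qv n r k))
    simp only [Nat.reduceAdd] at h1
    have h2 : b * ∑ k ∈ Finset.Ico 2 (n + 1), al κ k * (qv n r k * qv n x k)
        = ∑ k ∈ Finset.Ico 2 (n + 1), (b * (al κ k * qv n r k)) * qv n x k := by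
      rw [Finset.mul_sum]
      exact Finset.sum_congr rfl fun k _ => by ring
    rw [h2, ← h1]
    have h3 : a * qv n r 1 * qv n x 1 = ∑ i ∈ Finset.Ico 1 (n + 1), x i * (a * qv n r 1) := by
      rw [← Finset.sum_mul]
      unfold qv
      ring
    rw [h3, ← Finset.sum_add_distrib]
    refine Finset.sum_congr rfl fun i _ => ?_
    unfold Sb
    rw [mul_add, Finset.mul_sum (a := b)]
  -- the constant part
  obtain ⟨c0, hc0⟩ : ∃ c0, c0 = (hw1 (qv n r 0) / 2) * Ng n κ a b r ρ'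
      + (hw2 (qv n r 0) / 2 * Nq n κ a b r) * qv n ρ' 0 := ⟨_, rfl⟩
  have hGf0 : Gf n κ a b r ρ' 0 = Ph2 (r 0) * ρ' 0 + c0 := by
    unfold Gf
    rw [hc0]
    simp only [if_true, smul_eq_mul]
    ring
  have hGf1 : ∀ i, 1 ≤ i → Gf n κ a b r ρ' i = qv n ρ' 1 + hw (qv n r 0) * Sg n κ a b ρ' i
      + (hw1 (qv n r 0) * Sb n κ a b r i) * qv n ρ' 0 + c0 := fun i hi => by
    unfold Gf
    rw [hc0, if_neg (by omega)]
    simp only [smul_eq_mul]
    ring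
  have hFf1 : ∀ i, 1 ≤ i → Ff n κ a b r i = qv n r 1 + hw (qv n r 0) * Sb n κ a b r i
      + hw1 (qv n r 0) / 2 * Nq n κ a b r := fun i hi => by
    unfold Ff
    rw [if_neg (by omega)]
  -- the first sum
  have hfirst : ∑ i ∈ Finset.range (n + 1), ρ' i * Gf n κ a b r ρ' i
      = Ph2 (r 0) * ρ' 0 ^ 2 + qv n ρ' 1 ^ 2
        + hw (qv n r 0) * (a * qv n ρ' 1 * qv n ρ' 1
          + b * ∑ k ∈ Finset.Ico 2 (n + 1), al κ k * (qv n ρ' k * qv n ρ' k))
        + hw1 (qv n r 0) * qv n ρ' 0 * (a * qv n r 1 * qv n ρ' 1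
          + b * ∑ k ∈ Finset.Ico 2 (n + 1), al κ k * (qv n r k * qv n ρ' k))
        + c0 * qv n ρ' 0 := by
    rw [← hSg, ← hSb, Finset.range_eq_Ico, Finset.sum_eq_sum_Ico_succ_bot (by omega), hGf0,
      qv_zero ρ']
    have h1 : ∑ i ∈ Finset.Ico 1 (n + 1), ρ' i * Gf n κ a b r ρ' i
        = ∑ i ∈ Finset.Ico 1 (n + 1), (ρ' i * qv n ρ' 1
          + hw (qv n r 0) * (ρ' i * Sg n κ a b ρ' i)
          + hw1 (qv n r 0) * qv n ρ' 0 * (ρ' i * Sb n κ a b r i) + ρ' i * c0) :=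
      Finset.sum_congr rfl fun i hi => by
        rw [hGf1 i (Finset.mem_Ico.mp hi).1]
        ring
    have h2 : ∑ i ∈ Finset.Ico 1 (n + 1), ρ' i = qv n ρ' 1 := rfl
    rw [zero_add, h1, Finset.sum_add_distrib, Finset.sum_add_distrib, Finset.sum_add_distrib,
      ← Finset.mul_sum, ← Finset.mul_sum, ← Finset.sum_mul, ← Finset.sum_mul, h2, qv_zero ρ']
    ring
  -- the second sum
  obtain ⟨x, hx⟩ : ∃ x : ℕ → ℝ, x = fun i => (K + κ i) * z i := ⟨_, rfl⟩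
  have hxk : ∀ k, qv n x k = K * qv n z k + (κ k * qv n z k
      + ∑ l ∈ Finset.Ico (k + 1) (n + 1), al κ l * qv n z l) := fun k => by
    rw [← abel n k κ z, hx]
    unfold qv
    rw [Finset.mul_sum, ← Finset.sum_add_distrib]
    exact Finset.sum_congr rfl fun i _ => by ring
  have hx1 : qv n x 1 = K * qv n z 1 + ∑ k ∈ Finset.Ico 2 (n + 1), al κ k * qv n z k := by
    rw [hxk 1, hκ]
    simp
  have hsecond : ∑ i ∈ Finset.Ico 1 (n + 1), (K + κ i) * z i *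
        (Gf n κ a b r ρ' i + ζ * Ff n κ a b r i)
      = (qv n ρ' 1 + ζ * qv n r 1 + c0 + ζ * (hw1 (qv n r 0) / 2 * Nq n κ a b r)) * qv n x 1
        + hw (qv n r 0) * (a * qv n ρ' 1 * qv n x 1
          + b * ∑ k ∈ Finset.Ico 2 (n + 1), al κ k * (qv n ρ' k * qv n x k))
        + (hw1 (qv n r 0) * qv n ρ' 0 + ζ * hw (qv n r 0)) * (a * qv n r 1 * qv n x 1
          + b * ∑ k ∈ Finset.Ico 2 (n + 1), al κ k * (qv n r k * qv n x k)) := by
    rw [← hSg, ← hSb]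
    have h1 : ∑ i ∈ Finset.Ico 1 (n + 1), (K + κ i) * z i *
        (Gf n κ a b r ρ' i + ζ * Ff n κ a b r i)
        = ∑ i ∈ Finset.Ico 1 (n + 1), ((qv n ρ' 1 + ζ * qv n r 1 + c0
            + ζ * (hw1 (qv n r 0) / 2 * Nq n κ a b r)) * x i
          + hw (qv n r 0) * (x i * Sg n κ a b ρ' i)
          + (hw1 (qv n r 0) * qv n ρ' 0 + ζ * hw (qv n r 0)) * (x i * Sb n κ a b r i)) :=
      Finset.sum_congr rfl fun i hi => by
        rw [hGf1 i (Finset.mem_Ico.mp hi).1, hFf1 i (Finset.mem_Ico.mp hi).1, hx]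
        ring
    rw [h1, Finset.sum_add_distrib, Finset.sum_add_distrib, ← Finset.mul_sum, ← Finset.mul_sum,
      ← Finset.mul_sum]
    rfl
  rw [hfirst, hsecond]
  -- the letters
  obtain ⟨m2, hm2⟩ : ∃ m2, m2 = ∑ k ∈ Finset.Ico 2 (n + 1), al κ k / s * (qv n r k * zh k) :=
    ⟨_, rfl⟩
  obtain ⟨C2, hC2⟩ : ∃ C2, C2 = ∑ k ∈ Finset.Ico 2 (n + 1), al κ k / s * zh k ^ 2 := ⟨_, rfl⟩
  obtain ⟨N2, hN2⟩ : ∃ N2, N2 = ∑ k ∈ Finset.Ico 2 (n + 1), al κ k / s * qv n r k ^ 2 :=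
    ⟨_, rfl⟩
  obtain ⟨yh, hyh⟩ : ∃ yh, yh = ∑ k ∈ Finset.Ico 2 (n + 1), al κ k * zh k := ⟨_, rfl⟩
  obtain ⟨yb, hyb⟩ : ∃ yb, yb = ∑ k ∈ Finset.Ico 2 (n + 1), al κ k * qv n r k := ⟨_, rfl⟩
  obtain ⟨S6, hS6⟩ : ∃ S6, S6 = ∑ k ∈ Finset.Ico 2 (n + 1), al κ k * ((κ k * qv n z k
            + ∑ l ∈ Finset.Ico (k + 1) (n + 1), al κ l * qv n z l) * qv n z k) := ⟨_, rfl⟩
  obtain ⟨S7, hS7⟩ : ∃ S7, S7 = ∑ k ∈ Finset.Ico 2 (n + 1), al κ k * (qv n r k * (κ k * qv n z k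
            + ∑ l ∈ Finset.Ico (k + 1) (n + 1), al κ l * qv n z l)) := ⟨_, rfl⟩
  rw [← hm2, ← hC2, ← hN2, ← hyh, ← hyb, ← hS6, ← hS7]
  have hs0 : s ≠ 0 := hs.ne'
  have hm2' : ∑ k ∈ Finset.Ico 2 (n + 1), al κ k * (qv n r k * zh k) = s * m2 := by
    rw [hm2, Finset.mul_sum]
    exact Finset.sum_congr rfl fun k _ => by field_simp
  have hC2' : ∑ k ∈ Finset.Ico 2 (n + 1), al κ k * zh k ^ 2 = s * C2 := by
    rw [hC2, Finset.mul_sum]
    exact Finset.sum_congr rfl fun k _ => by field_simp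
  have hN2' : ∑ k ∈ Finset.Ico 2 (n + 1), al κ k * qv n r k ^ 2 = s * N2 := by
    rw [hN2, Finset.mul_sum]
    exact Finset.sum_congr rfl fun k _ => by field_simp
  have hT1 : ∑ k ∈ Finset.Ico 2 (n + 1), al κ k * (qv n r k * qv n ρ' k)
      = s * (m2 - K * ω * N2) := by
    have : s * (m2 - K * ω * N2) = s * m2 - K * ω * (s * N2) := by ring
    rw [this, ← hm2', ← hN2', Finset.mul_sum, ← Finset.sum_sub_distrib]
    exact Finset.sum_congr rfl fun k _ => by rw [hG]; ring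
  have hT2 : ∑ k ∈ Finset.Ico 2 (n + 1), al κ k * (qv n ρ' k * qv n ρ' k)
      = s * (C2 - 2 * K * ω * m2 + K ^ 2 * ω ^ 2 * N2) := by
    have : s * (C2 - 2 * K * ω * m2 + K ^ 2 * ω ^ 2 * N2)
        = s * C2 - 2 * K * ω * (s * m2) + K ^ 2 * ω ^ 2 * (s * N2) := by ring
    rw [this, ← hm2', ← hN2', ← hC2', Finset.mul_sum, Finset.mul_sum, ← Finset.sum_sub_distrib,
      ← Finset.sum_add_distrib]
    exact Finset.sum_congr rfl fun k _ => by rw [hG]; ring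
  have hS1 : ∑ k ∈ Finset.Ico 2 (n + 1), al κ k * qv n z k = yh + yb * ω := by
    rw [hyh, hyb, Finset.sum_mul, ← Finset.sum_add_distrib]
    exact Finset.sum_congr rfl fun k _ => by rw [hGZ]; ring
  have hT34 : ∑ k ∈ Finset.Ico 2 (n + 1), al κ k * (qv n ρ' k * qv n x k)
        + ζ * ∑ k ∈ Finset.Ico 2 (n + 1), al κ k * (qv n r k * qv n x k)
      = K * (s * (C2 + 2 * ω * m2 + ω ^ 2 * N2)) + S6 := by
    have : K * (s * (C2 + 2 * ω * m2 + ω ^ 2 * N2))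
        = K * (s * C2) + 2 * K * ω * (s * m2) + K * ω ^ 2 * (s * N2) := by ring
    rw [this, ← hm2', ← hN2', ← hC2', hS6, Finset.mul_sum, Finset.mul_sum, Finset.mul_sum,
      Finset.mul_sum, ← Finset.sum_add_distrib, ← Finset.sum_add_distrib,
      ← Finset.sum_add_distrib, ← Finset.sum_add_distrib]
    refine Finset.sum_congr rfl fun k _ => ?_
    rw [hxk]
    obtain ⟨y, hy⟩ : ∃ y, y = κ k * qv n z k
      + ∑ l ∈ Finset.Ico (k + 1) (n + 1), al κ l * qv n z l := ⟨_, rfl⟩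
    rw [← hy, hG, hGZ, hζ]
    ring
  have hT4 : ∑ k ∈ Finset.Ico 2 (n + 1), al κ k * (qv n r k * qv n x k)
      = K * (s * (m2 + ω * N2)) + S7 := by
    have : K * (s * (m2 + ω * N2)) = K * (s * m2) + K * ω * (s * N2) := by ring
    rw [this, ← hm2', ← hN2', hS7, Finset.mul_sum, Finset.mul_sum, ← Finset.sum_add_distrib,
      ← Finset.sum_add_distrib]
    refine Finset.sum_congr rfl fun k _ => ?_
    rw [hxk]
    obtain ⟨y, hy⟩ : ∃ y, y = κ k * qv n z k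
      + ∑ l ∈ Finset.Ico (k + 1) (n + 1), al κ l * qv n z l := ⟨_, rfl⟩
    rw [← hy, hGZ]
    ring
  have hNq : Nq n κ a b r = a * qv n r 1 ^ 2 + b * (s * N2) := by
    unfold Nq
    rw [hN2']
  have hNg : Ng n κ a b r ρ' = 2 * a * qv n r 1 * qv n ρ' 1
      + 2 * b * (s * (m2 - K * ω * N2)) := by
    unfold Ng
    rw [← hT1, Finset.mul_sum]
    simp only [smul_eq_mul]
    congr 1
    exact Finset.sum_congr rfl fun k _ => by ring
  obtain ⟨X, hX⟩ : ∃ X, X = qv n x 1 := ⟨_, rfl⟩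
  have hX' : X = K * (zh 1 + ω * qv n r 1) + (yh + yb * ω) := by
    rw [hX, hx1, hS1, hGZ]
  rw [← hX, hT2, hT1]
  have hT3 : ∑ k ∈ Finset.Ico 2 (n + 1), al κ k * (qv n ρ' k * qv n x k)
      = K * (s * (C2 + 2 * ω * m2 + ω ^ 2 * N2)) + S6 - ζ * (K * (s * (m2 + ω * N2)) + S7) := by
    rw [← hT34, hT4]
    ring
  rw [hT3, hT4, hc0, hNq, hNg, hG 1, hX', hζ]
  unfold Qp hw1 hw2
  ring

end Pool.Agent.Lib.MP_4fbe7c_an.WN.H53
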